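import Pool.Agent.L7h62.SD.Defs

/-!
# The generator of the ideal of forms with a common zero is covariant (`S_COV`)
-/

set_option autoImplicit false

open MvPolynomial

namespace Pool.Agent.L7h26.SD

open Pool.Agent.L7h62.SD

section basics

variable {N m : ℕ} {R S : Type*} [CommRing R] [CommRing S]

lemma act_map (φ : R →+* S) (g : Matrix (Fin N) (Fin N) R) (a : (Fin m → Fin N) → R)
    (k : Fin m → Fin N) : φ (act g a k) = act (g.map φ) (fun j => φ (a j)) k := by
  unfold act
  simp [map_sum, map_mul, map_prod]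

lemma at_map [Algebra ℂ R] [Algebra ℂ S] (φ : R →ₐ[ℂ] S) (a : Fin N → (Fin m → Fin N) → R)
    (F : UR N m) : φ (at_ a F) = at_ (fun i j => φ (a i j)) F := by
  unfold at_
  rw [MvPolynomial.comp_aeval_apply]

lemma ev_act (g : Matrix (Fin N) (Fin N) R) (a : (Fin m → Fin N) → R) (x : Fin N → R) :
    ev (act g a) x = ev a (g.mulVec x) := by
  unfold ev act
  simp only [Matrix.mulVec, dotProduct, Finset.sum_mul]
  rw [Finset.sum_comm]
  refine Finset.sum_congr rfl fun j _ => ?_
  rw [Finset.prod_univ_sum, Finset.mul_sum, Fintype.piFinset_univ]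
  refine Finset.sum_congr rfl fun k _ => ?_
  rw [Finset.prod_mul_distrib]
  ring

lemma act_act (g h : Matrix (Fin N) (Fin N) R) (a : (Fin m → Fin N) → R) :
    act g (act h a) = act (h * g) a := by
  funext k
  unfold act
  simp only [Matrix.mul_apply, Finset.sum_mul]
  rw [Finset.sum_comm]
  refine Finset.sum_congr rfl fun j _ => ?_
  rw [Finset.prod_univ_sum, Finset.mul_sum, Fintype.piFinset_univ]
  refine Finset.sum_congr rfl fun k _ => ?_
  rw [Finset.prod_mul_distrib]
  ring

lemma act_one (a : (Fin m → Fin N) → R) : act 1 a = a := by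
  classical
  funext k
  unfold act
  rw [Finset.sum_eq_single k]
  · simp
  · intro j _ hj
    obtain ⟨l, hl⟩ := Function.ne_iff.1 hj
    have h1 : ∏ l : Fin m, (1 : Matrix (Fin N) (Fin N) R) (j l) (k l) = 0 :=
      Finset.prod_eq_zero (Finset.mem_univ l) (Matrix.one_apply_ne hl)
    exact (congrArg (fun z => a j * z) h1).trans (mul_zero _)
  · intro h
    exact absurd (Finset.mem_univ k) h

lemma act_zero (hm : 1 ≤ m) (a : (Fin m → Fin N) → R) : act 0 a = 0 := by
  funext k
  unfold act
  refine Finset.sum_eq_zero fun j _ => ?_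
  have h1 : ∏ l : Fin m, (0 : Matrix (Fin N) (Fin N) R) (j l) (k l) = 0 :=
    Finset.prod_eq_zero (Finset.mem_univ (⟨0, hm⟩ : Fin m)) (Matrix.zero_apply _ _)
  exact (congrArg (fun z => a j * z) h1).trans (mul_zero _)

end basics

/-- the substitution `a ↦ act g a` -/
noncomputable def T {N : ℕ} (m : ℕ) (g : Matrix (Fin N) (Fin N) ℂ) : UR N m →ₐ[ℂ] UR N m :=
  aeval fun q : Idx N m => act (g.map C) (fun j => X (q.1, j)) q.2

lemma at_T {N m : ℕ} {R : Type*} [CommRing R] [Algebra ℂ R] (g : Matrix (Fin N) (Fin N) ℂ)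
    (a : Fin N → (Fin m → Fin N) → R) (F : UR N m) :
    at_ a (T m g F) = at_ (fun i => act (g.map (algebraMap ℂ R)) (a i)) F := by
  unfold at_ T
  rw [MvPolynomial.comp_aeval_apply]
  congr 2
  funext q
  have h1 := act_map ((aeval (fun p : Idx N m => a p.1 p.2) : UR N m →ₐ[ℂ] R) : UR N m →+* R)
    (g.map C) (fun j => X (q.1, j)) q.2
  refine h1.trans ?_
  congr 1
  · ext i j
    simp
  · funext j
    simp

/-- the polynomials are determined by their values at the complex points -/
lemma ur_ext {N m : ℕ} {F G : UR N m}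
    (h : ∀ a : Fin N → (Fin m → Fin N) → ℂ, at_ a F = at_ a G) : F = G := by
  refine MvPolynomial.funext fun x => ?_
  have h1 := h fun i j => x (i, j)
  unfold at_ at h1
  rw [MvPolynomial.aeval_eq_eval] at h1
  exact h1

lemma dens {N : ℕ} (F : MvPolynomial (Fin N × Fin N) ℂ)
    (h : ∀ g : Matrix (Fin N) (Fin N) ℂ, g.det ≠ 0 → eval (fun q => g q.1 q.2) F = 0) : F = 0 := by
  have h1 : F * (Matrix.mvPolynomialX (Fin N) (Fin N) ℂ).det = 0 := by
    refine MvPolynomial.funext fun x => ?_
    rw [map_mul, map_zero, Matrix.eval_det_mvPolynomialX]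
    by_cases hd : (Matrix.of fun i j : Fin N => x (i, j)).det = 0
    · rw [hd, mul_zero]
    · have h2 := h _ hd
      have h3 : (fun q : Fin N × Fin N => (Matrix.of fun i j : Fin N => x (i, j)) q.1 q.2) = x := by
        funext q
        simp
      rw [h3] at h2
      rw [h2, zero_mul]
  exact (mul_eq_zero.1 h1).resolve_right (Matrix.det_mvPolynomialX_ne_zero _ _)

/-- a multiplicative polynomial function is a power -/
lemma mult_poly (q : Polynomial ℂ) (h1 : q.eval 1 = 1)
    (hm : ∀ c d : ℂ, q.eval (c * d) = q.eval c * q.eval d) : ∃ k : ℕ, ∀ c : ℂ, q.eval c = c ^ k := by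
  have hq : q ≠ 0 := by
    rintro rfl
    simp at h1
  obtain ⟨n, hn⟩ : ∃ n, q.coeff n ≠ 0 := by
    by_contra hcon
    push Not at hcon
    exact hq (Polynomial.ext fun n => by rw [hcon n, Polynomial.coeff_zero])
  refine ⟨n, fun c => ?_⟩
  have h2 : q.comp (Polynomial.C c * Polynomial.X) = Polynomial.C (q.eval c) * q := by
    refine Polynomial.funext fun d => ?_
    rw [Polynomial.eval_comp, Polynomial.eval_mul, Polynomial.eval_mul, Polynomial.eval_C,
      Polynomial.eval_C, Polynomial.eval_X, hm]
  have h3 := congrArg (fun P => Polynomial.coeff P n) h2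
  simp only [Polynomial.comp_C_mul_X_coeff, Polynomial.coeff_C_mul] at h3
  have h4 : q.coeff n * (c ^ n - q.eval c) = 0 := by
    rw [mul_sub, h3]; ring
  exact (sub_eq_zero.1 ((mul_eq_zero.1 h4).resolve_left hn)).symm

/-- the character of `GL_N` -/
lemma exists_char {N m : ℕ} {p : UR N m} (hp : Prime p) (hR : Rid N m = Ideal.span {p})
    (g : Matrix (Fin N) (Fin N) ℂ) (hg : IsUnit g.det) :
    ∃ u : ℂ, u ≠ 0 ∧ ∀ a : Fin N → (Fin m → Fin N) → ℂ, at_ (fun i => act g (a i)) p = u * at_ a p := by
  have hmem : ∀ g : Matrix (Fin N) (Fin N) ℂ, IsUnit g.det → ∃ c : UR N m, T m g p = c * p := by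
    intro g hg
    have h1 : T m g p ∈ Rid N m := by
      intro a ha
      rw [at_T]
      have hpR : p ∈ Rid N m := by
        rw [hR]; exact Ideal.mem_span_singleton_self p
      refine hpR _ ?_
      obtain ⟨x, hx, hz⟩ := ha
      have hgi : g * g⁻¹ = 1 := Matrix.mul_nonsing_inv g hg
      refine ⟨g⁻¹.mulVec x, ?_, fun i => ?_⟩
      · intro h0
        apply hx
        have h2 := congrArg (fun v => g.mulVec v) h0
        simpa [Matrix.mulVec_mulVec, hgi] using h2
      · have h3 : g.map (algebraMap ℂ ℂ) = g := by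
          ext i j; rfl
        rw [h3, ev_act, Matrix.mulVec_mulVec, hgi, Matrix.one_mulVec]
        exact hz i
    rw [hR, Ideal.mem_span_singleton'] at h1
    obtain ⟨c, hc⟩ := h1
    exact ⟨c, hc.symm⟩
  obtain ⟨c, hc⟩ := hmem g hg
  have hgi' : IsUnit (g⁻¹).det := Matrix.isUnit_nonsing_inv_det g hg
  obtain ⟨c', hc'⟩ := hmem g⁻¹ hgi'
  have hTT : T m g (T m g⁻¹ p) = p := by
    refine ur_ext fun a => ?_
    rw [at_T, at_T]
    have h3 : ∀ g : Matrix (Fin N) (Fin N) ℂ, g.map (algebraMap ℂ ℂ) = g := by
      intro g; ext i j; rfl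
    simp only [h3, act_act, Matrix.mul_nonsing_inv g hg, act_one]
  have hu : T m g c' * c = 1 := by
    have h4 : T m g c' * c * p = 1 * p := by
      rw [mul_assoc, ← hc, ← map_mul, ← hc', hTT, one_mul]
    exact mul_right_cancel₀ hp.ne_zero h4
  have hcu : IsUnit c := IsUnit.of_mul_eq_one_right _ hu
  obtain ⟨u, hu1, hu2⟩ := MvPolynomial.isUnit_iff_eq_C_of_isReduced.1 hcu
  refine ⟨u, hu1.ne_zero, fun a => ?_⟩
  have h5 := congrArg (at_ a) hc
  rw [at_T, hu2] at h5
  have h3 : g.map (algebraMap ℂ ℂ) = g := by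
    ext i j; rfl
  rw [h3] at h5
  rw [h5]
  unfold at_
  rw [map_mul, MvPolynomial.aeval_C]
  rfl

/-- **S_COV.** -/
theorem s_COV : S_COV := by
  intro N m hm p hp hR
  classical
  -- a point where `p` does not vanish
  obtain ⟨b, hb⟩ : ∃ b : Fin N → (Fin m → Fin N) → ℂ, at_ b p ≠ 0 := by
    by_contra hcon
    push Not at hcon
    apply hp.ne_zero
    refine ur_ext fun a => ?_
    rw [hcon a]
    unfold at_
    rw [map_zero]
  have hmap : ∀ g : Matrix (Fin N) (Fin N) ℂ, g.map (algebraMap ℂ ℂ) = g := by
    intro g; ext i j; rfl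
  -- the universal value at a matrix
  set G : Matrix (Fin N) (Fin N) (MvPolynomial (Fin N × Fin N) ℂ) :=
    Matrix.mvPolynomialX (Fin N) (Fin N) ℂ with hG
  have hval : ∀ (a : Fin N → (Fin m → Fin N) → ℂ) (g : Matrix (Fin N) (Fin N) ℂ),
      eval (fun q => g q.1 q.2) (at_ (fun i => act G (fun j => C (a i j))) p) =
        at_ (fun i => act g (a i)) p := by
    intro a g
    have h1 := at_map (aeval (fun q : Fin N × Fin N => g q.1 q.2) :
      MvPolynomial (Fin N × Fin N) ℂ →ₐ[ℂ] ℂ) (fun i => act G (fun j => C (a i j))) p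
    rw [MvPolynomial.aeval_eq_eval] at h1
    refine h1.trans ?_
    congr 1
    funext i k
    refine (act_map (eval (fun q : Fin N × Fin N => g q.1 q.2)) G (fun j => C (a i j)) k).trans ?_
    congr 1
    · ext i j
      simp [hG, Matrix.mvPolynomialX]
    · funext j
      simp
  -- the character on all matrices
  set χ : Matrix (Fin N) (Fin N) ℂ → ℂ := fun g => at_ (fun i => act g (b i)) p / at_ b p with hχ
  have hχ1 : ∀ (a : Fin N → (Fin m → Fin N) → ℂ) (g : Matrix (Fin N) (Fin N) ℂ),
      at_ (fun i => act g (a i)) p = χ g * at_ a p := by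
    intro a g
    have h1 : at_ (fun i => act G (fun j => C (a i j))) p * C (at_ b p) -
        at_ (fun i => act G (fun j => C (b i j))) p * C (at_ a p) = 0 := by
      refine dens _ fun g hg => ?_
      rw [map_sub, map_mul, map_mul, hval, hval, eval_C, eval_C]
      obtain ⟨u, _, hu⟩ := exists_char hp hR g (Ne.isUnit hg)
      rw [hu, hu]
      ring
    have h2 := congrArg (eval (fun q : Fin N × Fin N => g q.1 q.2)) h1
    rw [map_sub, map_mul, map_mul, hval, hval, eval_C, eval_C, map_zero, sub_eq_zero] at h2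
    rw [hχ]
    field_simp
    exact h2
  have hχmul : ∀ g h, χ (g * h) = χ g * χ h := by
    intro g h
    have h1 := hχ1 b (g * h)
    have h2 : at_ (fun i => act (g * h) (b i)) p = χ h * (χ g * at_ b p) := by
      rw [← hχ1 b g, ← hχ1]
      simp only [act_act]
    rw [h1] at h2
    exact mul_right_cancel₀ hb (by rw [h2]; ring)
  have hχone : χ 1 = 1 := by
    rw [hχ]
    simp only [act_one]
    exact div_self hb
  have hχinv : ∀ g h, g * h = 1 → χ g ≠ 0 := by
    intro g h hgh h0
    have h1 := hχmul g h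
    rw [hgh, hχone, h0, zero_mul] at h1
    exact one_ne_zero h1
  -- the values at a polynomial family of matrices
  have hpoly : ∀ (E : Fin N × Fin N → Polynomial ℂ), ∃ q : Polynomial ℂ, ∀ c : ℂ,
      q.eval c = χ (Matrix.of fun i j => (E (i, j)).eval c) := by
    intro E
    refine ⟨aeval E (at_ (fun i => act G (fun j => C (b i j))) p) * Polynomial.C (at_ b p)⁻¹,
      fun c => ?_⟩
    rw [Polynomial.eval_mul, Polynomial.eval_C]
    show _ = at_ (fun i => act (Matrix.of fun i j => (E (i, j)).eval c) (b i)) p / at_ b p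
    rw [div_eq_mul_inv]
    congr 1
    rw [← hval]
    have h1 : Polynomial.eval c (aeval E (at_ (fun i => act G (fun j => C (b i j))) p)) =
        (Polynomial.aeval c) (aeval E (at_ (fun i => act G (fun j => C (b i j))) p)) := by
      rw [Polynomial.coe_aeval_eq_eval]
    rw [h1, MvPolynomial.comp_aeval_apply, MvPolynomial.aeval_eq_eval]
    congr 2
  -- diagonal matrices
  have hdiag1 : ∀ i : Fin N, ∃ k : ℕ, ∀ c : ℂ, χ (Matrix.diagonal (Pi.mulSingle i c)) = c ^ k := by
    intro i
    obtain ⟨q, hq⟩ := hpoly fun e => if e.1 = e.2 then (if e.1 = i then Polynomial.X else 1) else 0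
    have hq' : ∀ c, q.eval c = χ (Matrix.diagonal (Pi.mulSingle i c)) := by
      intro c
      rw [hq]
      congr 1
      ext x y
      rw [Matrix.of_apply, Matrix.diagonal_apply, Pi.mulSingle_apply]
      by_cases hxy : x = y
      · subst hxy
        by_cases hxi : x = i
        · subst hxi
          simp
        · simp [hxi]
      · simp [hxy]
    obtain ⟨k, hk⟩ := mult_poly q (by
        rw [hq', Pi.mulSingle_one]
        show χ (Matrix.diagonal fun _ => 1) = 1
        rw [Matrix.diagonal_one, hχone])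
      (by
        intro c d
        rw [hq', hq', hq', ← hχmul, Matrix.diagonal_mul_diagonal]
        congr 2
        rw [Pi.mulSingle_mul]
        rfl)
    exact ⟨k, fun c => by rw [← hq', hk]⟩
  choose kk hkk using hdiag1
  have hkeq : ∀ i j : Fin N, kk i = kk j := by
    intro i j
    have h1 : (Equiv.swap i j).toPEquiv.toMatrix * Matrix.diagonal (Pi.mulSingle j (2 : ℂ)) =
        Matrix.diagonal (Pi.mulSingle i (2 : ℂ)) * (Equiv.swap i j).toPEquiv.toMatrix := by
      rw [PEquiv.toMatrix_toPEquiv_mul, PEquiv.mul_toMatrix_toPEquiv]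
      ext x y
      rw [Matrix.submatrix_apply, Matrix.submatrix_apply, Matrix.diagonal_apply,
        Matrix.diagonal_apply, Equiv.symm_swap]
      by_cases hxy : Equiv.swap i j x = y
      · have hxy' : x = Equiv.swap i j y := by rw [← hxy, Equiv.swap_apply_self]
        simp only [id, hxy, if_true, ← hxy']
        rw [Pi.mulSingle_apply, Pi.mulSingle_apply]
        by_cases hx : x = i
        · rw [if_pos hx, if_pos (by rw [← hxy, hx, Equiv.swap_apply_left])]
        · rw [if_neg hx, if_neg]
          intro hy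
          apply hx
          rw [hxy', hy, Equiv.swap_apply_right]
      · have hxy' : x ≠ Equiv.swap i j y := by
          intro h
          apply hxy
          rw [h, Equiv.swap_apply_self]
        simp only [id, hxy, hxy', if_false]
    have h2 := congrArg χ h1
    rw [hχmul, hχmul, hkk, hkk, mul_comm] at h2
    have h3 : χ ((Equiv.swap i j).toPEquiv.toMatrix) ≠ 0 := by
      refine hχinv _ ((Equiv.swap i j).toPEquiv.toMatrix) ?_
      rw [PEquiv.toMatrix_toPEquiv_mul]
      ext x y
      simp [PEquiv.toMatrix_apply, Matrix.one_apply]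
    have h4 := mul_right_cancel₀ h3 h2
    exact (Nat.pow_right_injective (le_refl 2) (by exact_mod_cast h4)).symm
  obtain ⟨k, hk⟩ : ∃ k : ℕ, ∀ i, kk i = k := by
    rcases isEmpty_or_nonempty (Fin N) with he | ⟨⟨i0⟩⟩
    · exact ⟨0, fun i => he.elim i⟩
    · exact ⟨kk i0, fun i => hkeq i i0⟩
  have hdiag : ∀ D : Fin N → ℂ, χ (Matrix.diagonal D) = (Matrix.diagonal D).det ^ k := by
    intro D
    rw [Matrix.det_diagonal, ← Finset.prod_pow]
    let ψ : (Fin N → ℂ) →* ℂ :=
      { toFun := fun D => χ (Matrix.diagonal D)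
        map_one' := by
          show χ (Matrix.diagonal fun _ => 1) = 1
          rw [Matrix.diagonal_one, hχone]
        map_mul' := by
          intro D E
          show χ (Matrix.diagonal (D * E)) = χ (Matrix.diagonal D) * χ (Matrix.diagonal E)
          rw [← hχmul, Matrix.diagonal_mul_diagonal]
          rfl }
    have h1 : ψ D = ∏ i, ψ (Pi.mulSingle i (D i)) := by
      rw [← map_prod, Finset.univ_prod_mulSingle]
    refine (show χ (Matrix.diagonal D) = ψ D from rfl).trans (h1.trans ?_)
    refine Finset.prod_congr rfl fun i _ => ?_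
    show χ (Matrix.diagonal (Pi.mulSingle i (D i))) = _
    rw [hkk, hk]
  -- transvections
  have htrans : ∀ (i j : Fin N) (c : ℂ), i ≠ j → χ (Matrix.transvection i j c) = 1 := by
    intro i j c hij
    have hne : χ (Matrix.transvection i j c) ≠ 0 := by
      refine hχinv _ (Matrix.transvection i j (-c)) ?_
      rw [Matrix.transvection_mul_transvection_same _ _ hij, add_neg_cancel,
        Matrix.transvection_zero]
    have h1 : Matrix.diagonal (Pi.mulSingle i (2 : ℂ)) * Matrix.transvection i j c =
        Matrix.transvection i j (c + c) * Matrix.diagonal (Pi.mulSingle i (2 : ℂ)) := by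
      ext x y
      rw [Matrix.diagonal_mul, Matrix.mul_diagonal]
      simp only [Matrix.transvection, Matrix.add_apply, Matrix.single_apply, Matrix.one_apply,
        Pi.mulSingle_apply]
      by_cases hx : x = i
      · by_cases hy : y = j
        · subst hx hy
          simp [hij, hij.symm]
          ring
        · by_cases hxy : x = y
          · subst hxy hx
            simp [Ne.symm hy]
          · simp [hx, Ne.symm hy]
            intro h
            rw [if_neg (Ne.symm h), if_neg (Ne.symm h)]
      · by_cases hxy : x = y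
        · subst hxy
          simp [hx, Ne.symm hx]
        · simp [hx, hxy, Ne.symm hx]
    have h2 := congrArg χ h1
    rw [hχmul, hχmul, hkk, ← Matrix.transvection_mul_transvection_same _ _ hij, hχmul] at h2
    have h3 : (2 : ℂ) ^ kk i ≠ 0 := pow_ne_zero _ two_ne_zero
    have h4 : χ (Matrix.transvection i j c) * (2 : ℂ) ^ kk i *
        (χ (Matrix.transvection i j c) - 1) = 0 := by
      linear_combination (-1 : ℂ) * h2
    exact sub_eq_zero.1 ((mul_eq_zero.1 h4).resolve_left (mul_ne_zero hne h3))
  have hall : ∀ g : Matrix (Fin N) (Fin N) ℂ, χ g = g.det ^ k := by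
    intro g
    refine Matrix.diagonal_transvection_induction (fun g => χ g = g.det ^ k) g
      (fun D _ => hdiag D) (fun t => ?_) (fun A B hA hB => ?_)
    · rw [Matrix.TransvectionStruct.toMatrix, htrans _ _ _ t.hij, Matrix.det_transvection_of_ne _ _ t.hij,
        one_pow]
    · rw [hχmul, hA, hB, Matrix.det_mul, mul_pow]
  have hk1 : 1 ≤ k := by
    by_contra hcon
    have hk0 : k = 0 := by omega
    have h1 : p = C (at_ (0 : Fin N → (Fin m → Fin N) → ℂ) p) := by
      refine ur_ext fun a => ?_
      have h2 := hχ1 a 0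
      rw [hall, hk0, pow_zero, one_mul] at h2
      rw [← h2]
      simp only [act_zero hm]
      conv_rhs => unfold at_
      rw [MvPolynomial.aeval_C]
      rfl
    have h2 : at_ (0 : Fin N → (Fin m → Fin N) → ℂ) p ≠ 0 := by
      intro h0
      rw [h0, C_0] at h1
      exact hp.ne_zero h1
    apply hp.not_isUnit
    rw [h1]
    exact (Ne.isUnit h2).map C
  refine ⟨k, hk1, fun L _ _ a g => ?_⟩
  -- the universal identity
  let U := MvPolynomial (Idx N m ⊕ (Fin N × Fin N)) ℂ
  let aU : Fin N → (Fin m → Fin N) → U := fun i j => X (Sum.inl (i, j))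
  let gU : Matrix (Fin N) (Fin N) U := Matrix.of fun i j => X (Sum.inr (i, j))
  have hU : at_ (fun i => act gU (aU i)) p = gU.det ^ k * at_ aU p := by
    refine MvPolynomial.funext fun x => ?_
    have h1 := at_map (aeval x : U →ₐ[ℂ] ℂ) (fun i => act gU (aU i)) p
    have h2 := at_map (aeval x : U →ₐ[ℂ] ℂ) aU p
    rw [MvPolynomial.aeval_eq_eval] at h1 h2
    rw [map_mul, map_pow, RingHom.map_det]
    refine h1.trans ?_
    refine Eq.trans ?_ (congrArg _ h2.symm)
    have h3 := hχ1 (fun i j => eval x (aU i j)) (gU.map (eval x))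
    rw [hall] at h3
    refine Eq.trans ?_ h3
    congr 1
    funext i k
    exact act_map (eval x) gU (aU i) k
  let φ : U →ₐ[ℂ] L := aeval (Sum.elim (fun q : Idx N m => a q.1 q.2) fun q => g q.1 q.2)
  have h1 := congrArg φ hU
  rw [map_mul, map_pow, at_map, at_map, AlgHom.map_det] at h1
  have ha : (fun i j => φ (aU i j)) = a := by
    funext i j
    show aeval _ (X (Sum.inl (i, j))) = _
    rw [aeval_X]
    rfl
  have hg : φ.mapMatrix gU = g := by
    ext i j
    show aeval _ (X (Sum.inr (i, j))) = _
    rw [aeval_X]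
    rfl
  rw [ha, hg] at h1
  rw [← h1]
  congr 1
  funext i k
  have h2 := act_map (φ : U →+* L) gU (aU i) k
  refine Eq.trans ?_ h2.symm
  congr 1
  · rw [← hg]
    rfl
  · funext j
    rw [← ha]
    rfl

end Pool.Agent.L7h26.SD
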