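import Pool.Agent.L7h62.SD.Defs

/-!
# A criterion for integrality (`S_INT`)
-/

set_option autoImplicit false

open MvPolynomial

namespace Pool.Agent.L7h26.SD

open Pool.Agent.L7h62.SD

/-- **S_INT.** -/
theorem s_INT : S_INT := by
  intro R S _ _ _ _ N M y hy
  classical
  set D : ℕ := N * (M - 1) with hD
  set W : Submodule R S := Submodule.span R {z : S | ∃ γ : Fin N → ℕ, ∑ i, γ i ≤ D ∧
    z = ∏ i, y i ^ γ i} with hW
  -- all monomials are in `W`
  have key : ∀ n : ℕ, ∀ γ : Fin N → ℕ, ∑ i, γ i = n → ∏ i, y i ^ γ i ∈ W := by
    intro n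
    induction n using Nat.strong_induction_on with
    | _ n ih =>
      intro γ hγ
      rcases le_or_gt n D with h | h
      · exact Submodule.subset_span ⟨γ, by rw [hγ]; exact h, rfl⟩
      · obtain ⟨i, hi⟩ : ∃ i, M ≤ γ i := by
          by_contra hcon
          push Not at hcon
          have h1 : ∑ i, γ i ≤ ∑ _i : Fin N, (M - 1) :=
            Finset.sum_le_sum fun i _ => by have := hcon i; omega
          rw [Finset.sum_const, Finset.card_univ, Fintype.card_fin, smul_eq_mul] at h1
          omega
        -- split off `y i ^ M`
        set γ' : Fin N → ℕ := Function.update γ i (γ i - M) with hγ'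
        have h2 : ∏ l, y l ^ γ l = y i ^ M * ∏ l, y l ^ γ' l := by
          rw [← Finset.mul_prod_erase Finset.univ (fun l => y l ^ γ l) (Finset.mem_univ i),
            ← Finset.mul_prod_erase Finset.univ (fun l => y l ^ γ' l) (Finset.mem_univ i),
            ← mul_assoc]
          congr 1
          · rw [hγ', Function.update_self, ← pow_add, Nat.add_sub_cancel' hi]
          · refine Finset.prod_congr rfl fun l hl => ?_
            rw [hγ', Function.update_of_ne (Finset.ne_of_mem_erase hl)]
        have h3 : ∑ l, γ' l + M = n := by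
          rw [← hγ, ← Finset.add_sum_erase Finset.univ γ (Finset.mem_univ i),
            ← Finset.add_sum_erase Finset.univ γ' (Finset.mem_univ i)]
          have h4 : ∑ l ∈ Finset.univ.erase i, γ' l = ∑ l ∈ Finset.univ.erase i, γ l :=
            Finset.sum_congr rfl fun l hl => by
              rw [hγ', Function.update_of_ne (Finset.ne_of_mem_erase hl)]
          rw [h4, hγ', Function.update_self]
          omega
        rw [h2]
        -- multiplication by the monomial
        have h5 : ∀ z ∈ Submodule.span R {z : S | ∃ β : Fin N → ℕ, ∑ i, β i < M ∧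
            z = ∏ i, y i ^ β i}, z * ∏ l, y l ^ γ' l ∈ W := by
          intro z hz
          induction hz using Submodule.span_induction with
          | mem z hz =>
            obtain ⟨β, hβ, rfl⟩ := hz
            have h6 : (∏ l, y l ^ β l) * ∏ l, y l ^ γ' l = ∏ l, y l ^ (β l + γ' l) := by
              rw [← Finset.prod_mul_distrib]
              exact Finset.prod_congr rfl fun l _ => (pow_add _ _ _).symm
            rw [h6]
            refine ih (∑ l, (β l + γ' l)) ?_ (fun l => β l + γ' l) rfl
            rw [Finset.sum_add_distrib]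
            omega
          | zero => rw [zero_mul]; exact W.zero_mem
          | add x z _ _ hx hz => rw [add_mul]; exact W.add_mem hx hz
          | smul r x _ hx => rw [smul_mul_assoc]; exact W.smul_mem r hx
        exact h5 _ (hy i)
  have hfin : {z : S | ∃ γ : Fin N → ℕ, ∑ i, γ i ≤ D ∧ z = ∏ i, y i ^ γ i}.Finite := by
    have h1 : {γ : Fin N → ℕ | ∑ i, γ i ≤ D}.Finite := by
      refine (Set.finite_Iic (fun _ : Fin N => D)).subset fun γ hγ i => ?_
      exact (Finset.single_le_sum (fun i _ => Nat.zero_le _) (Finset.mem_univ i)).trans hγ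
    refine (h1.image (fun γ => ∏ i, y i ^ γ i)).subset ?_
    rintro z ⟨γ, hγ, rfl⟩
    exact ⟨γ, hγ, rfl⟩
  have hfg : W.FG := Submodule.fg_span hfin
  have h1W : (1 : S) ∈ W := by
    have := key 0 (fun _ => 0) (by simp)
    simpa using this
  have hne : W ≠ ⊥ := by
    intro h
    rw [h, Submodule.mem_bot] at h1W
    exact one_ne_zero h1W
  intro j
  refine isIntegral_of_smul_mem_submodule (A := S) W hne hfg (y j) fun z hz => ?_
  induction hz using Submodule.span_induction with
  | mem z hz =>
    obtain ⟨γ, _, rfl⟩ := hz
    have h2 : y j • ∏ i, y i ^ γ i = ∏ i, y i ^ (Function.update γ j (γ j + 1)) i := by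
      rw [smul_eq_mul, ← Finset.mul_prod_erase Finset.univ (fun l => y l ^ γ l) (Finset.mem_univ j),
        ← Finset.mul_prod_erase Finset.univ (fun l => y l ^ (Function.update γ j (γ j + 1)) l)
          (Finset.mem_univ j), ← mul_assoc]
      congr 1
      · rw [Function.update_self, pow_succ, mul_comm]
      · refine Finset.prod_congr rfl fun l hl => ?_
        rw [Function.update_of_ne (Finset.ne_of_mem_erase hl)]
    rw [h2]
    exact key _ _ rfl
  | zero => rw [smul_zero]; exact W.zero_mem
  | add x z _ _ hx hz => rw [smul_add]; exact W.add_mem hx hz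
  | smul r x _ hx =>
    rw [smul_comm]
    exact W.smul_mem r hx

end Pool.Agent.L7h26.SD
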