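import Pool.Agent.L7h26.SD.Int

/-!
# Points with constant values outside a hyperplane (`S_SUR`)
-/

set_option autoImplicit false

open MvPolynomial

namespace Pool.Agent.L7h26.SD

open Pool.Agent.L7h62.SD

/-- the form as a polynomial -/
noncomputable def fp {R : Type*} [CommRing R] {N m : ℕ} (a : (Fin m → Fin N) → R) :
    MvPolynomial (Fin N) R := ∑ j, C (a j) * ∏ l, X (j l)

lemma fp_hom {R : Type*} [CommRing R] {N m : ℕ} (a : (Fin m → Fin N) → R) :
    (fp a).IsHomogeneous m := by
  unfold fp
  refine IsHomogeneous.sum _ _ _ fun j _ => ?_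
  have h1 : (∏ l : Fin m, X (j l) : MvPolynomial (Fin N) R).IsHomogeneous (∑ _l : Fin m, 1) :=
    IsHomogeneous.prod _ _ _ fun l _ => isHomogeneous_X _ _
  have h2 := (isHomogeneous_C (Fin N) (a j)).mul h1
  simpa using h2

lemma aeval_fp {R S : Type*} [CommRing R] [CommRing S] [Algebra R S] {N m : ℕ}
    (a : (Fin m → Fin N) → R) (x : Fin N → S) :
    aeval x (fp a) = ev (fun j => algebraMap R S (a j)) x := by
  unfold fp ev
  simp [map_sum, map_mul, map_prod]

/-- homogeneous components of a product -/
lemma hc_mul {R σ : Type*} [CommRing R] {g f : MvPolynomial σ R} {m : ℕ} (hf : f.IsHomogeneous m)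
    (n : ℕ) : homogeneousComponent (n + m) (g * f) = homogeneousComponent n g * f := by
  classical
  have h1 : g * f = ∑ k ∈ Finset.range (g.totalDegree + 1), homogeneousComponent k g * f := by
    rw [← Finset.sum_mul, sum_homogeneousComponent]
  rw [h1, map_sum]
  have h2 : ∀ k ∈ Finset.range (g.totalDegree + 1),
      homogeneousComponent (n + m) (homogeneousComponent k g * f) =
        if k = n then homogeneousComponent n g * f else 0 := by
    intro k _
    rw [homogeneousComponent_of_mem ((homogeneousComponent_isHomogeneous k g).mul hf)]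
    by_cases h : k = n
    · subst h; simp
    · rw [if_neg h, if_neg (by omega)]
  rw [Finset.sum_congr rfl h2, Finset.sum_ite_eq']
  split_ifs with h
  · rfl
  · rw [Finset.mem_range, not_lt] at h
    rw [homogeneousComponent_eq_zero _ _ (by omega), zero_mul]

/-- the projective Nullstellensatz for `N` forms -/
lemma null_hom {N m : ℕ} {L : Type} [Field L] [IsAlgClosed L] (a : Fin N → (Fin m → Fin N) → L)
    (ha : ¬ HasZero a) : ∃ M : ℕ, m ≤ M ∧ ∀ j : Fin N, ∃ h : Fin N → MvPolynomial (Fin N) L,
      (∀ i, (h i).IsHomogeneous (M - m)) ∧ X j ^ M = ∑ i, h i * fp (a i) := by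
  classical
  set J : Ideal (MvPolynomial (Fin N) L) := Ideal.span (Set.range fun i => fp (a i)) with hJ
  have hz : ∀ x ∈ zeroLocus L J, x = 0 := by
    intro x hx
    by_contra hne
    apply ha
    refine ⟨x, hne, fun i => ?_⟩
    have h1 := (mem_zeroLocus_iff (K := L)).1 hx (fp (a i)) (Ideal.subset_span ⟨i, rfl⟩)
    rw [aeval_fp] at h1
    exact h1
  have hrad : ∀ j : Fin N, ∃ M : ℕ, (X j : MvPolynomial (Fin N) L) ^ M ∈ J := by
    intro j
    have h1 : (X j : MvPolynomial (Fin N) L) ∈ vanishingIdeal L (zeroLocus L J) := by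
      rw [mem_vanishingIdeal_iff]
      intro x hx
      rw [hz x hx, aeval_X]
      rfl
    rw [vanishingIdeal_zeroLocus_eq_radical] at h1
    exact h1
  choose Mj hMj using hrad
  refine ⟨∑ j, Mj j + m, Nat.le_add_left _ _, fun j => ?_⟩
  have h1 : (X j : MvPolynomial (Fin N) L) ^ (∑ j, Mj j + m) ∈ J := by
    have h2 : Mj j ≤ ∑ j, Mj j + m :=
      (Finset.single_le_sum (fun i _ => Nat.zero_le _) (Finset.mem_univ j)).trans
        (Nat.le_add_right _ _)
    rw [← Nat.sub_add_cancel h2, pow_add]
    exact J.mul_mem_left _ (hMj j)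
  rw [hJ, Ideal.mem_span_range_iff_exists_fun] at h1
  obtain ⟨g, hg⟩ := h1
  refine ⟨fun i => homogeneousComponent (∑ j, Mj j) (g i), fun i => ?_, ?_⟩
  · rw [Nat.add_sub_cancel]
    exact homogeneousComponent_isHomogeneous _ _
  · have h2 := congrArg (homogeneousComponent (∑ j, Mj j + m)) hg
    rw [map_sum] at h2
    simp only [hc_mul (fp_hom _)] at h2
    rw [h2]
    exact (homogeneousComponent_eq_self ((isHomogeneous_X_pow j _))).symm

/-- an integral equation with a nonzero last coefficient -/
lemma exists_last {A B : Type*} [CommRing A] [CommRing B] [IsDomain B] [Algebra A B] {ℓ : B}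
    (hℓ : ℓ ≠ 0) : ∀ (d : ℕ) (P : Polynomial A), P.Monic → P.natDegree = d →
      Polynomial.aeval ℓ P = 0 → ∃ Q : Polynomial A, Polynomial.aeval ℓ Q = 0 ∧ Q.coeff 0 ≠ 0 := by
  intro d
  induction d with
  | zero =>
    intro P hP hd h
    rw [Polynomial.eq_one_of_monic_natDegree_zero hP hd, map_one] at h
    exact absurd h one_ne_zero
  | succ d ih =>
    intro P hP hd h
    by_cases h0 : P.coeff 0 = 0
    · have h1 : P = P.divX * Polynomial.X := by
        conv_lhs => rw [← P.divX_mul_X_add, h0, map_zero, add_zero]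
      have h2 : Polynomial.aeval ℓ P.divX = 0 := by
        rw [h1, map_mul, Polynomial.aeval_X] at h
        exact (mul_eq_zero.1 h).resolve_right hℓ
      have hm : P.divX.Monic := by
        rw [h1] at hP
        exact Polynomial.Monic.of_mul_monic_right Polynomial.monic_X hP
      refine ih P.divX hm ?_ h2
      rw [Polynomial.natDegree_divX_eq_natDegree_tsub_one, hd]
      rfl
    · exact ⟨P, h, h0⟩

/-- **S_SUR.** -/
theorem s_SUR : S_SUR := by
  intro N m hm L _ _ _ a ha w hw
  classical
  set B := MvPolynomial (Fin N) L with hB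
  set f : Fin N → B := fun i => fp (a i) with hf
  set A : Subalgebra L B := Algebra.adjoin L (Set.range f) with hA
  obtain ⟨M, hM, hnull⟩ := null_hom a ha
  have hfA : ∀ i, f i ∈ A := fun i => Algebra.subset_adjoin ⟨i, rfl⟩
  -- integrality of the coordinates
  have hintX : ∀ j, IsIntegral A (X j : B) := by
    refine s_INT A B N M (fun j => (X j : B)) fun j => ?_
    obtain ⟨h, hh, hX⟩ := hnull j
    rw [hX]
    refine Submodule.sum_mem _ fun i _ => ?_
    have h1 : h i * f i = ∑ d ∈ (h i).support, (⟨f i, hfA i⟩ * algebraMap L A (coeff d (h i)) : A) •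
        (∏ l, (X l : B) ^ d l) := by
      conv_lhs => rw [(h i).as_sum, Finset.sum_mul]
      refine Finset.sum_congr rfl fun d _ => ?_
      rw [monomial_eq, Finsupp.prod_fintype _ _ (fun _ => pow_zero _)]
      show _ = (f i * (algebraMap L B (coeff d (h i)))) * _
      rw [MvPolynomial.algebraMap_eq]
      ring
    show h i * f i ∈ _
    rw [h1]
    refine Submodule.sum_mem _ fun d hd => Submodule.smul_mem _ _ (Submodule.subset_span ?_)
    refine ⟨fun l => d l, ?_, rfl⟩
    have h2 : d.degree = M - m := by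
      rw [Finsupp.degree_eq_weight_one]
      exact hh i (mem_support_iff.1 hd)
    rw [Finsupp.degree_eq_sum] at h2
    show ∑ i, d i < M
    rw [h2]
    omega
  have hint : Algebra.IsIntegral A B := by
    refine ⟨fun b => ?_⟩
    induction b using MvPolynomial.induction_on with
    | C r =>
      have : (C r : B) = algebraMap A B (algebraMap L A r) := rfl
      rw [this]
      exact isIntegral_algebraMap
    | add p q hp hq => exact hp.add hq
    | mul_X p j hp => exact hp.mul (hintX j)
  -- algebraic independence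
  have halg : Algebra.IsAlgebraic A B := inferInstance
  have htr : IsTranscendenceBasis L f := by
    refine Algebra.IsAlgebraic.isTranscendenceBasis_of_le_trdeg_of_finite L f ?_
    rw [MvPolynomial.trdeg_of_isDomain]
    simp
  have hind : AlgebraicIndependent L f := htr.1
  -- the linear form
  set ℓ : B := ∑ j, C (w j) * X j with hℓ
  have hℓ0 : ℓ ≠ 0 := by
    intro h
    apply hw
    funext j
    have h1 := congrArg (MvPolynomial.eval (Pi.single j (1 : L))) h
    rw [hℓ, map_sum, map_zero] at h1
    simp only [map_mul, eval_C, eval_X] at h1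
    rw [Finset.sum_eq_single j] at h1
    · simpa using h1
    · intro i _ hij
      rw [Pi.single_eq_of_ne hij, mul_zero]
    · intro h2
      exact absurd (Finset.mem_univ j) h2
  obtain ⟨P0, hP0, hP0'⟩ := hint.isIntegral ℓ
  obtain ⟨P, hP, hPc⟩ := exists_last hℓ0 _ P0 hP0 rfl hP0'
  -- the last coefficient as a polynomial in the `f i`
  set G : B := hind.aevalEquiv.symm (P.coeff 0) with hG
  have hG0 : G ≠ 0 := by
    intro h
    apply hPc
    rw [hG] at h
    exact (map_eq_zero_iff _ hind.aevalEquiv.symm.injective).1 h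
  obtain ⟨lam, hlam⟩ : ∃ lam : Fin N → ℂ, eval (fun i => algebraMap ℂ L (lam i)) G ≠ 0 := by
    by_contra hcon
    push Not at hcon
    apply hG0
    refine MvPolynomial.funext_set (fun _ : Fin N => Set.range (algebraMap ℂ L))
      (fun _ => Set.infinite_range_of_injective (algebraMap ℂ L).injective) fun x hx => ?_
    rw [map_zero]
    have h1 : ∀ i, ∃ c : ℂ, algebraMap ℂ L c = x i := fun i => hx i (Set.mem_univ i)
    choose c hc using h1
    rw [← hcon c]
    congr 2
    funext i
    exact (hc i).symm
  -- the point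
  set φ : A →ₐ[L] L := (aeval (fun i => algebraMap ℂ L (lam i))).comp
    (hind.aevalEquiv.symm : A →ₐ[L] B) with hφ
  have hφf : ∀ i, φ ⟨f i, hfA i⟩ = algebraMap ℂ L (lam i) := by
    intro i
    have h1 : (⟨f i, hfA i⟩ : A) = hind.aevalEquiv (X i) := by
      apply Subtype.ext
      rw [hind.aevalEquiv_apply_coe, aeval_X]
    rw [hφ, AlgHom.comp_apply, h1]
    show aeval _ (hind.aevalEquiv.symm (hind.aevalEquiv (X i))) = _
    rw [AlgEquiv.symm_apply_apply, aeval_X]
  have hφs : Function.Surjective φ := fun r => ⟨algebraMap L A r, φ.commutes r⟩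
  have hmax : (RingHom.ker φ).IsMaximal := RingHom.ker_isMaximal_of_surjective φ hφs
  obtain ⟨Q, hQmax, hQ⟩ := Ideal.exists_ideal_over_maximal_of_isIntegral (S := B) (RingHom.ker φ) (by
    intro z hz
    have h1 : algebraMap A B z = 0 := hz
    have h2 : z = 0 := Subtype.ext h1
    rw [h2]
    exact Ideal.zero_mem _)
  obtain ⟨x, hx⟩ := (MvPolynomial.isMaximal_iff_eq_vanishingIdeal_singleton (K := L)).1 hQmax
  have hQx : ∀ b : B, b ∈ Q ↔ eval x b = 0 := by
    intro b
    rw [hx, mem_vanishingIdeal_iff]
    simp [MvPolynomial.aeval_eq_eval]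
  refine ⟨x, lam, fun i => ?_, ?_⟩
  · have h1 : (⟨f i, hfA i⟩ - algebraMap L A (algebraMap ℂ L (lam i)) : A) ∈ RingHom.ker φ := by
      rw [RingHom.mem_ker, map_sub, hφf, φ.commutes]
      exact sub_self _
    rw [← hQ, Ideal.mem_comap, hQx] at h1
    have h2 : eval x (f i) = ev (a i) x := by
      have := aeval_fp (a i) x
      rw [MvPolynomial.aeval_eq_eval] at this
      exact this
    have h3 : algebraMap A B (⟨f i, hfA i⟩ - algebraMap L A (algebraMap ℂ L (lam i)) : A) =
        f i - C (algebraMap ℂ L (lam i)) := rfl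
    rw [h3, map_sub, eval_C, h2] at h1
    exact sub_eq_zero.1 h1
  · intro h0
    have hℓx : eval x ℓ = 0 := by
      rw [hℓ, map_sum]
      simpa using h0
    have h1 : Polynomial.aeval ℓ P = ℓ * Polynomial.aeval ℓ P.divX + algebraMap A B (P.coeff 0) := by
      conv_lhs => rw [← P.divX_mul_X_add]
      rw [map_add, map_mul, Polynomial.aeval_X, Polynomial.aeval_C, mul_comm]
    rw [hP] at h1
    have h2 : eval x (algebraMap A B (P.coeff 0)) = 0 := by
      have h3 := congrArg (eval x) h1
      rw [map_zero, map_add, map_mul, hℓx, zero_mul, zero_add] at h3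
      exact h3.symm
    rw [← hQx, ← Ideal.mem_comap, hQ, RingHom.mem_ker] at h2
    apply hlam
    rw [← h2]
    show eval _ G = aeval _ (hind.aevalEquiv.symm (P.coeff 0))
    rw [MvPolynomial.aeval_eq_eval]

end Pool.Agent.L7h26.SD
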